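import Pool.Agent.Lib.MP_ba0fa5_ag.H1.Kum

/-!
Module GZERO of project SSG: the points over `x = 0` of the curve `y ^ m = x ^ a (1 - x) ^ b`.
-/

namespace Pool.Agent.Lib.MP_ba0fa5_ag.H16

open Polynomial
open scoped Classical
open Pool.Agent.Lib.MP_ba0fa5_ag.H1

variable {k K : Type} [Field k] [Field K] [Algebra k K] {m a b : ℕ}
  {ι : RatFunc k →ₐ[k] K} {y : K}

theorem iota_poly (ι : RatFunc k →ₐ[k] K) (P : k[X]) :
    ι (algebraMap k[X] (RatFunc k) P) = aeval (ι RatFunc.X) P := by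
  have h : (ι.comp (IsScalarTower.toAlgHom k k[X] (RatFunc k))) = aeval (ι RatFunc.X) := by
    apply Polynomial.algHom_ext
    simp
  exact DFunLike.congr_fun h P

theorem aeval_X_eq (P : k[X]) :
    aeval (RatFunc.X : RatFunc k) P = algebraMap k[X] (RatFunc k) P := by
  have h : (IsScalarTower.toAlgHom k k[X] (RatFunc k)) = aeval (RatFunc.X : RatFunc k) := by
    apply Polynomial.algHom_ext
    simp
  exact (DFunLike.congr_fun h P).symm

theorem mem_adjoin_X {c : RatFunc k} (h : c ∈ Algebra.adjoin k {(RatFunc.X : RatFunc k)}) :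
    ∃ P : k[X], algebraMap k[X] (RatFunc k) P = c := by
  rw [Algebra.adjoin_singleton_eq_range_aeval] at h
  obtain ⟨P, hP⟩ := h
  exact ⟨P, by rw [← aeval_X_eq]; exact hP⟩

/-- elements of `k[x]` are integral -/
theorem poly_mem (ι : RatFunc k →ₐ[k] K) (P : k[X]) :
    aeval (ι RatFunc.X) P ∈ intCl k K {ι RatFunc.X} := by
  have h1 : aeval (ι RatFunc.X) P ∈ Algebra.adjoin k {ι RatFunc.X} := by
    rw [Algebra.adjoin_singleton_eq_range_aeval]
    exact ⟨P, rfl⟩
  rw [mem_intCl]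
  exact isIntegral_algebraMap (R := Algebra.adjoin k {ι RatFunc.X}) (x := ⟨_, h1⟩)

theorem x_mem (ι : RatFunc k →ₐ[k] K) : ι RatFunc.X ∈ intCl k K {ι RatFunc.X} := by
  have := poly_mem ι (X : k[X])
  simpa using this

theorem pow_mem_imp {s : Set K} {z : K} {n : ℕ} (hn : 0 < n) (h : z ^ n ∈ intCl k K s) :
    z ∈ intCl k K s := by
  rw [mem_intCl] at h ⊢
  exact IsIntegral.of_pow hn h

theorem one_sub_X_ne : (1 - X : k[X]) ≠ 0 := by
  intro h
  have h1 : (X : k[X]) = C 1 := by rw [C_1]; exact (sub_eq_zero.1 h).symm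
  exact X_ne_C (1 : k) h1

theorem ff_eq (a b : ℕ) : ff k a b = algebraMap k[X] (RatFunc k) (X ^ a * (1 - X) ^ b) := by
  unfold ff
  simp

/-- the order at `0` -/
theorem dvd_of_eval_ne {c : RatFunc k} {i : ℕ} {P : k[X]}
    (hP : algebraMap k[X] (RatFunc k) P = c ^ m * (ff k a b) ^ i) (h0 : P.eval 0 ≠ 0) :
    m ∣ a * i := by
  have hc : c ≠ 0 ∨ m = 0 := by
    by_contra hcon
    push Not at hcon
    obtain ⟨h1, h2⟩ := hcon
    rw [h1, zero_pow h2, zero_mul] at hP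
    have : P = 0 := by
      apply RatFunc.algebraMap_injective k
      rw [hP, map_zero]
    rw [this] at h0
    simp at h0
  rcases hc with hc | hm
  swap
  · subst hm
    rw [pow_zero, one_mul, ff_eq, ← map_pow] at hP
    have h1 := RatFunc.algebraMap_injective k hP
    rw [h1] at h0
    rcases Nat.eq_zero_or_pos (a * i) with h2 | h2
    · rw [h2]
    · exfalso
      apply h0
      rw [eval_pow, eval_mul, eval_pow, eval_X, mul_pow, ← pow_mul, zero_pow h2.ne', zero_mul]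
  -- clear denominators
  have hnum : c.num ≠ 0 := RatFunc.num_ne_zero hc
  have hden : c.denom ≠ 0 := RatFunc.denom_ne_zero c
  have hden' : algebraMap k[X] (RatFunc k) c.denom ≠ 0 := by
    intro h
    exact hden (RatFunc.algebraMap_injective k (by rw [h, map_zero]))
  have h1 : P * c.denom ^ m = c.num ^ m * (X ^ a * (1 - X) ^ b) ^ i := by
    apply RatFunc.algebraMap_injective k
    have h2 : c * algebraMap k[X] (RatFunc k) c.denom = algebraMap k[X] (RatFunc k) c.num := by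
      have h3 := RatFunc.num_div_denom c
      rw [div_eq_iff hden'] at h3
      exact h3.symm
    rw [map_mul, hP, ff_eq]
    simp only [map_mul, map_pow]
    rw [← h2]
    ring
  have hPne : P ≠ 0 := by
    intro h; rw [h] at h0; simp at h0
  have h2 := congrArg (rootMultiplicity 0) h1
  have e1 : (1 - X : k[X]) ≠ 0 := one_sub_X_ne
  have e2 : rootMultiplicity 0 (1 - X : k[X]) = 0 := by
    apply rootMultiplicity_eq_zero
    simp [IsRoot]
  have e3 : rootMultiplicity 0 (X : k[X]) = 1 := by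
    have := rootMultiplicity_X_sub_C_self (R := k) (x := 0)
    simpa using this
  have hpow : ∀ (Q : k[X]) (n : ℕ), rootMultiplicity 0 (Q ^ n) = n * rootMultiplicity 0 Q := by
    intro Q n
    by_cases hQ : Q = 0
    · subst hQ
      rcases Nat.eq_zero_or_pos n with h | h
      · subst h
        simp
      · rw [zero_pow h.ne']
        simp
    · induction n with
      | zero =>
        simp
      | succ n ih =>
        rw [pow_succ, rootMultiplicity_mul (mul_ne_zero (pow_ne_zero _ hQ) hQ), ih]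
        ring
  have hX : (X : k[X]) ≠ 0 := X_ne_zero
  rw [rootMultiplicity_mul (mul_ne_zero hPne (pow_ne_zero _ hden)), hpow,
    rootMultiplicity_mul (mul_ne_zero (pow_ne_zero _ hnum)
      (pow_ne_zero _ (mul_ne_zero (pow_ne_zero _ hX) (pow_ne_zero _ e1)))), hpow, hpow,
    rootMultiplicity_mul (mul_ne_zero (pow_ne_zero _ hX) (pow_ne_zero _ e1)), hpow, hpow, e2, e3,
    rootMultiplicity_eq_zero (by simpa [IsRoot] using h0)] at h2
  have h3 : m * rootMultiplicity 0 c.denom = m * rootMultiplicity 0 c.num + a * i := by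
    have : i * (a * 1 + b * 0) = a * i := by ring
    omega
  have h4 : a * i = m * rootMultiplicity 0 c.denom - m * rootMultiplicity 0 c.num := by omega
  rw [h4, ← Nat.mul_sub]
  exact dvd_mul_right _ _


/-- an element with a polynomial power is a polynomial -/
theorem exists_poly {e : RatFunc k} {n : ℕ} (hn : 0 < n) {P : k[X]}
    (h : algebraMap k[X] (RatFunc k) P = e ^ n) : ∃ Q : k[X], algebraMap k[X] (RatFunc k) Q = e := by
  apply IsIntegrallyClosed.exists_algebraMap_eq_of_isIntegral_pow hn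
  rw [← h]
  exact isIntegral_algebraMap

/-- the function `z = y ^ m₁ / x ^ a₁` -/
noncomputable def zz (ι : RatFunc k →ₐ[k] K) (y : K) (m₁ a₁ : ℕ) : K :=
  y ^ m₁ / (ι RatFunc.X) ^ a₁

theorem x_ne (ι : RatFunc k →ₐ[k] K) : ι RatFunc.X ≠ 0 := by
  intro h
  have : ι RatFunc.X = ι 0 := by rw [h, map_zero]
  exact RatFunc.X_ne_zero (ι.toRingHom.injective this)

theorem zz_pow (h : Kummer k K m a b ι y) {d m₁ a₁ : ℕ} (hm : m = d * m₁) (ha : a = d * a₁) :
    (zz ι y m₁ a₁) ^ d = aeval (ι RatFunc.X) ((1 - X : k[X]) ^ b) := by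
  unfold zz
  rw [div_pow, ← pow_mul, ← pow_mul, mul_comm m₁, mul_comm a₁, ← hm, ← ha, y_pow h]
  unfold ff
  rw [map_mul, map_pow, mul_div_cancel_left₀ _ (pow_ne_zero _ (x_ne ι)), map_pow, map_sub, map_one,
    map_pow, map_sub, map_one, aeval_X]

theorem zz_mem (h : Kummer k K m a b ι y) {d m₁ a₁ : ℕ} (hm : m = d * m₁) (ha : a = d * a₁) :
    zz ι y m₁ a₁ ∈ intCl k K {ι RatFunc.X} := by
  have hd : 0 < d := by
    rcases Nat.eq_zero_or_pos d with h0 | h0
    · subst h0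
      have := kum_pos h
      omega
    · exact h0
  apply pow_mem_imp hd
  rw [zz_pow h hm ha]
  exact poly_mem ι _

/-- values of a homomorphism on the components -/
theorem comp_value (h : Kummer k K m a b ι y) {d m₁ a₁ : ℕ} (hm : m = d * m₁) (ha : a = d * a₁)
    (hco : Nat.Coprime a₁ m₁) {c : RatFunc k} {i : ℕ} {P : k[X]}
    (hP : algebraMap k[X] (RatFunc k) P = c ^ m * (ff k a b) ^ i)
    (hr : ι c * y ^ i ∈ intCl k K {ι RatFunc.X}) :
    ∃ (g : k) (s : ℕ), ∀ (E : Type) [Field E] [Algebra k E] (φ : intCl k K {ι RatFunc.X} →ₐ[k] E),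
      φ ⟨ι RatFunc.X, x_mem ι⟩ = 0 →
        φ ⟨ι c * y ^ i, hr⟩ = algebraMap k E g * (φ ⟨zz ι y m₁ a₁, zz_mem h hm ha⟩) ^ s := by
  have hmpos := kum_pos h
  -- evaluation of polynomials
  have heval : ∀ (E : Type) [Field E] [Algebra k E] (φ : intCl k K {ι RatFunc.X} →ₐ[k] E),
      φ ⟨ι RatFunc.X, x_mem ι⟩ = 0 → ∀ Q : k[X],
        φ ⟨aeval (ι RatFunc.X) Q, poly_mem ι Q⟩ = algebraMap k E (Q.eval 0) := by
    intro E _ _ φ hφ Q
    have e1 : (⟨aeval (ι RatFunc.X) Q, poly_mem ι Q⟩ : intCl k K {ι RatFunc.X})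
        = aeval (⟨ι RatFunc.X, x_mem ι⟩ : intCl k K {ι RatFunc.X}) Q := by
      have e0 := Polynomial.aeval_algHom_apply (intCl k K {ι RatFunc.X}).val
        (⟨ι RatFunc.X, x_mem ι⟩ : intCl k K {ι RatFunc.X}) Q
      apply Subtype.ext
      exact e0
    rw [e1, ← Polynomial.aeval_algHom_apply, hφ, ← map_zero (algebraMap k E),
      Polynomial.aeval_algebraMap_apply_eq_algebraMap_eval]
  by_cases hdiv : m₁ ∣ i
  · obtain ⟨s, rfl⟩ := hdiv
    -- e = c X^(a₁ s)
    obtain ⟨Q, hQ⟩ : ∃ Q : k[X], algebraMap k[X] (RatFunc k) Q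
        = c * RatFunc.X ^ (a₁ * s) * (1 - RatFunc.X) ^ (b * (m₁ * s)) := by
      have hX : (algebraMap k[X] (RatFunc k)) (1 - X) = 1 - RatFunc.X := by simp
      apply exists_poly hmpos (P := P * (1 - X) ^ (b * (m₁ * s) * (m - 1)))
      rw [map_mul, hP, map_pow, hX]
      unfold ff
      have e1 : a * (m₁ * s) = a₁ * s * m := by rw [hm, ha]; ring
      have e2 : b * (m₁ * s) + b * (m₁ * s) * (m - 1) = b * (m₁ * s) * m := by
        obtain ⟨m', rfl⟩ : ∃ m', m = m' + 1 := ⟨m - 1, by omega⟩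
        rw [Nat.add_sub_cancel]; ring
      calc c ^ m * (RatFunc.X ^ a * (1 - RatFunc.X) ^ b) ^ (m₁ * s)
            * (1 - RatFunc.X) ^ (b * (m₁ * s) * (m - 1))
          = c ^ m * RatFunc.X ^ (a * (m₁ * s)) * ((1 - RatFunc.X) ^ (b * (m₁ * s))
              * (1 - RatFunc.X) ^ (b * (m₁ * s) * (m - 1))) := by
            rw [mul_pow, ← pow_mul, ← pow_mul]; ring
        _ = c ^ m * RatFunc.X ^ (a₁ * s * m) * (1 - RatFunc.X) ^ (b * (m₁ * s) * m) := by
            rw [← pow_add, e1, e2]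
        _ = _ := by rw [mul_pow, mul_pow, ← pow_mul, ← pow_mul]
    refine ⟨Q.eval 0, s, ?_⟩
    intro E _ _ φ hφ
    have e1 : (⟨ι c * y ^ (m₁ * s), hr⟩ : intCl k K {ι RatFunc.X})
        * ⟨aeval (ι RatFunc.X) ((1 - X : k[X]) ^ (b * (m₁ * s))), poly_mem ι _⟩
        = ⟨aeval (ι RatFunc.X) Q, poly_mem ι Q⟩ * ⟨zz ι y m₁ a₁, zz_mem h hm ha⟩ ^ s := by
      apply Subtype.ext
      show ι c * y ^ (m₁ * s) * aeval (ι RatFunc.X) ((1 - X : k[X]) ^ (b * (m₁ * s)))
        = aeval (ι RatFunc.X) Q * (zz ι y m₁ a₁) ^ s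
      rw [← iota_poly, ← iota_poly, hQ]
      unfold zz
      have hx := x_ne ι
      rw [div_pow, ← pow_mul, ← pow_mul, map_mul, map_mul, map_pow, map_pow, map_pow, map_pow,
        map_sub, map_sub, map_one, map_one, RatFunc.algebraMap_X, map_sub, map_one]
      field_simp
    have e2 := congrArg φ e1
    rw [map_mul φ, map_mul φ, map_pow φ, heval E φ hφ, heval E φ hφ] at e2
    rw [← e2]
    simp
  · refine ⟨0, 0, ?_⟩
    intro E _ _ φ hφ
    have h0 : P.eval 0 = 0 := by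
      by_contra hcon
      have h1 := dvd_of_eval_ne hP hcon
      apply hdiv
      have hd : 0 < d := by
        rcases Nat.eq_zero_or_pos d with h0 | h0
        · subst h0; omega
        · exact h0
      rw [hm, ha, mul_assoc] at h1
      have h2 : m₁ ∣ a₁ * i := Nat.dvd_of_mul_dvd_mul_left hd h1
      exact hco.symm.dvd_of_dvd_mul_left h2
    have e1 : (⟨ι c * y ^ i, hr⟩ : intCl k K {ι RatFunc.X}) ^ m
        = ⟨aeval (ι RatFunc.X) P, poly_mem ι P⟩ := by
      apply Subtype.ext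
      show (ι c * y ^ i) ^ m = aeval (ι RatFunc.X) P
      rw [← iota_poly, hP, map_mul, map_pow, map_pow, mul_pow, ← pow_mul, mul_comm i m, pow_mul,
        y_pow h]
    have e2 := congrArg φ e1
    rw [map_pow, heval E φ hφ, h0, map_zero] at e2
    rw [pow_eq_zero_iff hmpos.ne'] at e2
    rw [e2, map_zero, zero_mul]

/-- a homomorphism over `x = 0` is determined by its value at `z` -/
theorem value (hint : GintStmt) (h : Kummer k K m a b ι y) (hζ : ∃ ζ : k, IsPrimitiveRoot ζ m)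
    {d m₁ a₁ : ℕ} (hm : m = d * m₁) (ha : a = d * a₁)
    (hco : Nat.Coprime a₁ m₁) (r : intCl k K {ι RatFunc.X}) :
    ∃ g : k[X], ∀ (E : Type) [Field E] [Algebra k E] (φ : intCl k K {ι RatFunc.X} →ₐ[k] E),
      φ ⟨ι RatFunc.X, x_mem ι⟩ = 0 →
        φ r = aeval (φ ⟨zz ι y m₁ a₁, zz_mem h hm ha⟩) g := by
  have hmpos := kum_pos h
  obtain ⟨c, hc, -⟩ := h.basis (r : K)
  have h1 := (hint k K m a b ι y h hmpos hζ {RatFunc.X} (Or.inl rfl) c)
  have him : ι '' {(RatFunc.X : RatFunc k)} = {ι RatFunc.X} := Set.image_singleton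
  rw [him, ← hc] at h1
  have h2 := h1.1 r.2
  have hcomp : ∀ i : Fin m, ι (c i) * y ^ (i : ℕ) ∈ intCl k K {ι RatFunc.X} := by
    intro i
    have h3 := (hint k K m a b ι y h hmpos hζ {RatFunc.X} (Or.inl rfl)
      (fun j => if j = i then c i else 0))
    rw [him] at h3
    have h4 : (∑ j : Fin m, ι (if j = i then c i else 0) * y ^ (j : ℕ)) = ι (c i) * y ^ (i : ℕ) := by
      rw [Finset.sum_eq_single i]
      · simp
      · intro j _ hj
        simp [hj]
      · intro hi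
        exact absurd (Finset.mem_univ _) hi
    rw [h4] at h3
    apply h3.2
    intro j
    by_cases hj : j = i
    · subst hj
      simpa using h2 j
    · simp only [hj, if_false]
      rw [zero_pow hmpos.ne', zero_mul]
      exact Subalgebra.zero_mem _
  have hval : ∀ i : Fin m, ∃ (g : k) (s : ℕ), ∀ (E : Type) [Field E] [Algebra k E]
      (φ : intCl k K {ι RatFunc.X} →ₐ[k] E), φ ⟨ι RatFunc.X, x_mem ι⟩ = 0 →
        φ ⟨ι (c i) * y ^ (i : ℕ), hcomp i⟩
          = algebraMap k E g * (φ ⟨zz ι y m₁ a₁, zz_mem h hm ha⟩) ^ s := by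
    intro i
    obtain ⟨P, hP⟩ := mem_adjoin_X (h2 i)
    exact comp_value h hm ha hco hP (hcomp i)
  choose g s hg using hval
  refine ⟨∑ i, C (g i) * X ^ (s i), ?_⟩
  intro E _ _ φ hφ
  have e1 : r = ∑ i, (⟨ι (c i) * y ^ (i : ℕ), hcomp i⟩ : intCl k K {ι RatFunc.X}) := by
    apply Subtype.ext
    rw [AddSubmonoidClass.coe_finset_sum]
    exact hc
  rw [e1, map_sum, map_sum]
  refine Finset.sum_congr rfl fun i _ => ?_
  rw [hg i E φ hφ, map_mul, aeval_C, map_pow, aeval_X]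

/-- `x` is not invertible in the coordinate ring -/
theorem x_not_unit (hint : GintStmt) (h : Kummer k K m a b ι y)
    (hζ : ∃ ζ : k, IsPrimitiveRoot ζ m) :
    ¬ IsUnit (⟨ι RatFunc.X, x_mem ι⟩ : intCl k K {ι RatFunc.X}) := by
  have hmpos := kum_pos h
  intro hu
  obtain ⟨u, hu⟩ := hu.exists_right_inv
  have hu' : ι RatFunc.X * (u : K) = 1 := congrArg Subtype.val hu
  have h1 : (u : K) = ι (RatFunc.X⁻¹) := by
    rw [map_inv₀]
    exact (eq_inv_of_mul_eq_one_right hu')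
  have h3 := (hint k K m a b ι y h hmpos hζ {RatFunc.X} (Or.inl rfl)
      (fun j => if j = ⟨0, hmpos⟩ then RatFunc.X⁻¹ else 0))
  have him : ι '' {(RatFunc.X : RatFunc k)} = {ι RatFunc.X} := Set.image_singleton
  rw [him] at h3
  have h4 : (∑ j : Fin m, ι (if j = ⟨0, hmpos⟩ then RatFunc.X⁻¹ else 0) * y ^ (j : ℕ))
      = ι (RatFunc.X⁻¹) := by
    rw [Finset.sum_eq_single ⟨0, hmpos⟩]
    · simp
    · intro j _ hj
      simp [hj]
    · intro hi
      exact absurd (Finset.mem_univ _) hi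
  rw [h4, ← h1] at h3
  have h5 := h3.1 u.2 ⟨0, hmpos⟩
  obtain ⟨P, hP⟩ := mem_adjoin_X h5
  simp only [if_true, pow_zero, mul_one] at hP
  have h6 : P * X ^ m = 1 := by
    apply RatFunc.algebraMap_injective k
    rw [map_mul, hP, map_pow, RatFunc.algebraMap_X, map_one, ← mul_pow,
      inv_mul_cancel₀ RatFunc.X_ne_zero, one_pow]
  have h7 := congrArg (Polynomial.eval 0) h6
  rw [eval_mul, eval_pow, eval_X, zero_pow hmpos.ne', mul_zero, eval_one] at h7
  exact zero_ne_one h7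

/-- the restriction of the automorphism `y ↦ ζ y` to the coordinate ring -/
theorem exists_tau (h : Kummer k K m a b ι y) {ζ : k} (hζ : ζ ^ m = 1) {d m₁ a₁ : ℕ}
    (hm : m = d * m₁) (ha : a = d * a₁) :
    ∃ τ : intCl k K {ι RatFunc.X} →ₐ[k] intCl k K {ι RatFunc.X},
      τ ⟨ι RatFunc.X, x_mem ι⟩ = ⟨ι RatFunc.X, x_mem ι⟩ ∧
      τ ⟨zz ι y m₁ a₁, zz_mem h hm ha⟩
        = algebraMap k _ (ζ ^ m₁) * ⟨zz ι y m₁ a₁, zz_mem h hm ha⟩ := by
  obtain ⟨σ, h1, h2⟩ := exists_sigma h ζ hζ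
  let σk : K →ₐ[k] K := { σ with
    commutes' := by
      intro r
      have : algebraMap k K r = ι (algebraMap k (RatFunc k) r) := (ι.commutes r).symm
      show σ (algebraMap k K r) = algebraMap k K r
      rw [this, h1] }
  have hσk : ∀ z : K, σk z = σ z := fun _ => rfl
  have hfix : ∀ z ∈ Algebra.adjoin k {ι RatFunc.X}, σk z = z := by
    intro z hz
    rw [Algebra.adjoin_singleton_eq_range_aeval] at hz
    obtain ⟨P, rfl⟩ := hz
    show σk (aeval (ι RatFunc.X) P) = aeval (ι RatFunc.X) P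
    rw [← Polynomial.aeval_algHom_apply, hσk, h1]
  let σA : K →ₐ[Algebra.adjoin k {ι RatFunc.X}] K := { σ with
    commutes' := by
      intro r
      exact hfix r r.2 }
  have hmap : ∀ z ∈ intCl k K {ι RatFunc.X}, σk z ∈ intCl k K {ι RatFunc.X} := by
    intro z hz
    rw [mem_intCl] at hz ⊢
    exact hz.map σA
  refine ⟨(σk.comp (intCl k K {ι RatFunc.X}).val).codRestrict _ (fun z => hmap z z.2), ?_, ?_⟩
  · apply Subtype.ext
    exact h1 _
  · apply Subtype.ext
    show σ (zz ι y m₁ a₁) = algebraMap k K (ζ ^ m₁) * zz ι y m₁ a₁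
    unfold zz
    rw [map_div₀, map_pow, map_pow, h1, h2, mul_pow, map_pow]
    ring

theorem gzero (hint : GintStmt) : GzeroStmt := by
  intro k K _ _ _ m a b ι y h hmpos hζ F _ _ _
  obtain ⟨d, hd⟩ : ∃ d, d = a.gcd m := ⟨_, rfl⟩
  have hdpos : 0 < d := by rw [hd]; exact Nat.gcd_pos_of_pos_right _ hmpos
  obtain ⟨a₁, m₁, hco, ha, hm⟩ : ∃ a₁ m₁ : ℕ, Nat.Coprime a₁ m₁ ∧ a = d * a₁ ∧ m = d * m₁ := by
    obtain ⟨a₁, m₁, h1, h2, h3⟩ := Nat.exists_coprime a m
    exact ⟨a₁, m₁, h1, by rw [hd, mul_comm]; exact h2, by rw [hd, mul_comm]; exact h3⟩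
  rw [← hd]
  have hm₁pos : 0 < m₁ := by
    rcases Nat.eq_zero_or_pos m₁ with h0 | h0
    · subst h0; omega
    · exact h0
  obtain ⟨ζ, hζ'⟩ := hζ
  have hζd : IsPrimitiveRoot (ζ ^ m₁) d := hζ'.pow hmpos (by rw [hm, mul_comm])
  set R := intCl k K {ι RatFunc.X} with hR
  set x : R := ⟨ι RatFunc.X, x_mem ι⟩ with hx
  set z : R := ⟨zz ι y m₁ a₁, zz_mem h hm ha⟩ with hz
  -- z ^ d = (1 - x) ^ b
  have hzd : z ^ d = (1 - x) ^ b := by
    apply Subtype.ext
    show (zz ι y m₁ a₁) ^ d = (1 - ι RatFunc.X) ^ b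
    rw [zz_pow h hm ha]
    simp
  have hroot : ∀ (E : Type) [Field E] [Algebra k E] (φ : R →ₐ[k] E), φ x = 0 → (φ z) ^ d = 1 := by
    intro E _ _ φ hφ
    rw [← map_pow, hzd, map_pow, map_sub, map_one, hφ, sub_zero, one_pow]
  -- one homomorphism
  obtain ⟨φ₀, hφ₀⟩ : ∃ φ₀ : R →ₐ[k] F, φ₀ x = 0 := by
    obtain ⟨I, hI, hxI⟩ := exists_max_ideal_of_mem_nonunits (x_not_unit hint h ⟨ζ, hζ'⟩)
    letI : Field (R ⧸ I) := Ideal.Quotient.field I
    let π : R →ₐ[k] (R ⧸ I) := Ideal.Quotient.mkₐ k I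
    have hπ : π x = 0 := Ideal.Quotient.eq_zero_iff_mem.2 hxI
    have h1 : IsPrimitiveRoot (algebraMap k (R ⧸ I) (ζ ^ m₁)) d :=
      hζd.map_of_injective (algebraMap k (R ⧸ I)).injective
    haveI : NeZero d := ⟨hdpos.ne'⟩
    obtain ⟨j, -, hj⟩ := h1.eq_pow_of_pow_eq_one (hroot (R ⧸ I) π hπ)
    have hsurj : Function.Surjective (algebraMap k (R ⧸ I)) := by
      intro w
      obtain ⟨r, rfl⟩ := Ideal.Quotient.mk_surjective w
      obtain ⟨g, hg⟩ := value hint h ⟨ζ, hζ'⟩ hm ha hco r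
      have h2 := hg (R ⧸ I) π hπ
      have h3 : π r = Ideal.Quotient.mk I r := rfl
      rw [← h3, h2]
      refine ⟨g.eval ((ζ ^ m₁) ^ j), ?_⟩
      rw [← hz, ← hj, ← map_pow, Polynomial.aeval_algebraMap_apply_eq_algebraMap_eval]
    let e : k ≃ₐ[k] (R ⧸ I) := AlgEquiv.ofBijective (Algebra.ofId k (R ⧸ I))
      ⟨(algebraMap k (R ⧸ I)).injective, hsurj⟩
    refine ⟨(Algebra.ofId k F).comp ((e.symm : (R ⧸ I) →ₐ[k] k).comp π), ?_⟩
    show (Algebra.ofId k F) (e.symm (π x)) = 0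
    rw [hπ, map_zero, map_zero]
  have hζF : IsPrimitiveRoot (algebraMap k F (ζ ^ m₁)) d :=
    hζd.map_of_injective (algebraMap k F).injective
  haveI : NeZero d := ⟨hdpos.ne'⟩
  -- the bijection with the roots of unity
  let S := {φ : R →ₐ[k] F // ∀ h : ι RatFunc.X ∈ R, φ ⟨ι RatFunc.X, h⟩ = 0}
  have hS : ∀ φ : S, φ.1 x = 0 := fun φ => φ.2 (x_mem ι)
  let f : S → (Polynomial.nthRootsFinset d (1 : F)) := fun φ =>
    ⟨φ.1 z, by rw [Polynomial.mem_nthRootsFinset hdpos]; exact hroot F φ.1 (hS φ)⟩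
  have hf : Function.Bijective f := by
    constructor
    · intro φ ψ hφψ
      have h1 : φ.1 z = ψ.1 z := congrArg Subtype.val hφψ
      apply Subtype.ext
      apply AlgHom.ext
      intro r
      obtain ⟨g, hg⟩ := value hint h ⟨ζ, hζ'⟩ hm ha hco r
      rw [hg F φ.1 (hS φ), hg F ψ.1 (hS ψ), ← hz, h1]
    · intro ω
      have hω : (ω : F) ^ d = 1 := (Polynomial.mem_nthRootsFinset hdpos _).1 ω.2
      obtain ⟨j, -, hj⟩ := hζF.eq_pow_of_pow_eq_one (hroot F φ₀ hφ₀)
      have hne : φ₀ z ≠ 0 := by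
        intro h0
        have := hroot F φ₀ hφ₀
        rw [h0, zero_pow hdpos.ne'] at this
        exact zero_ne_one this
      have h1 : ((ω : F) / φ₀ z) ^ d = 1 := by
        rw [div_pow, hω, hroot F φ₀ hφ₀, div_one]
      obtain ⟨l, -, hl⟩ := hζF.eq_pow_of_pow_eq_one h1
      obtain ⟨τ, h2, h3⟩ := exists_tau h (ζ := ζ ^ l) (by
        rw [← pow_mul, mul_comm, pow_mul, hζ'.pow_eq_one, one_pow]) hm ha
      refine ⟨⟨φ₀.comp τ, ?_⟩, ?_⟩
      · intro h4
        show φ₀ (τ x) = 0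
        rw [h2]; exact hφ₀
      · apply Subtype.ext
        show φ₀ (τ z) = ω
        rw [h3, map_mul, AlgHom.commutes, ← hz, ← pow_mul, mul_comm l, pow_mul, map_pow, hl,
          div_mul_cancel₀ _ hne]
  rw [Nat.card_congr (Equiv.ofBijective f hf), Nat.card_eq_fintype_card, Fintype.card_coe,
    hζF.card_nthRootsFinset]

end Pool.Agent.Lib.MP_ba0fa5_ag.H16
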